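import Pool.Agent.W124.ITM.Final

/-! MP_d0d08e_co, Q1: the graphs `H` for which the graphs without `H` as an induced topological
minor have bounded clique-width are exactly the induced subgraphs of `P₄`, the paw and the
diamond. -/

set_option autoImplicit false

namespace Pool.Agent.Results.MP_d0d08e_co.Classification

open Pool.Agent.W124.ITM Pool.Agent.H175R2

theorem result {W : Type} [Finite W] (H : SimpleGraph W) :
    BddItm H ↔ (H.IsIndContained P4 ∨ H.IsIndContained paw ∨ H.IsIndContained diamond) :=
  classification H

end Pool.Agent.Results.MP_d0d08e_co.Classification
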